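import Pool.Agent.Helper320.LCMain

/-!
# The geometric entropy of a group of circle homeomorphisms

`Ball S n` are the products of at most `n` elements of `S`; `sepNumber S n δ` is the maximal
cardinality of an `(n, δ)`-separated set; `entropy S` is the geometric entropy of Ghys, Langevin
and Walczak.
-/

set_option autoImplicit false
open Filter Topology
open scoped ENNReal NNReal

namespace Pool.Agent.Y689.CE

open Pool.Agent.Helper320.LC

/-- the products of at most `n` elements of `S` -/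
def Ball (S : Set (Circ ≃ₜ Circ)) (n : ℕ) : Set (Circ ≃ₜ Circ) :=
  {w | ∃ l : List (Circ ≃ₜ Circ), l.length ≤ n ∧ (∀ s ∈ l, s ∈ S) ∧ l.prod = w}

/-- any two points of `A` are moved to distance at least `δ` by a product of at most `n` elements
of `S` -/
def Separated (S : Set (Circ ≃ₜ Circ)) (n : ℕ) (δ : ℝ) (A : Finset Circ) : Prop :=
  ∀ x ∈ A, ∀ y ∈ A, x ≠ y → ∃ w ∈ Ball S n, δ ≤ dist (w x) (w y)

/-- the maximal cardinality of a separated set -/
noncomputable def sepNumber (S : Set (Circ ≃ₜ Circ)) (n : ℕ) (δ : ℝ) : ℕ :=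
  sSup {k | ∃ A : Finset Circ, Separated S n δ A ∧ A.card = k}

/-- the geometric entropy -/
noncomputable def entropy (S : Set (Circ ≃ₜ Circ)) : ℝ≥0∞ :=
  ⨆ (δ : ℝ) (_ : 0 < δ),
    limsup (fun n : ℕ => ENNReal.ofReal (Real.log (sepNumber S n δ) / n)) atTop

variable {S : Set (Circ ≃ₜ Circ)}

lemma one_mem_Ball (n : ℕ) : (1 : Circ ≃ₜ Circ) ∈ Ball S n := ⟨[], by simp, by simp, rfl⟩

lemma Ball_mono {m n : ℕ} (h : m ≤ n) : Ball S m ⊆ Ball S n := by
  rintro w ⟨l, h1, h2, h3⟩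
  exact ⟨l, h1.trans h, h2, h3⟩

lemma mul_mem_Ball {s w : Circ ≃ₜ Circ} {n : ℕ} (hs : s ∈ S) (hw : w ∈ Ball S n) :
    s * w ∈ Ball S (n + 1) := by
  obtain ⟨l, h1, h2, h3⟩ := hw
  refine ⟨s :: l, by simpa using h1, ?_, by simp [h3]⟩
  intro t ht
  rcases List.mem_cons.1 ht with h | h
  · rw [h]; exact hs
  · exact h2 t h

lemma Ball_mul {w w' : Circ ≃ₜ Circ} {m n : ℕ} (hw : w ∈ Ball S m) (hw' : w' ∈ Ball S n) :
    w * w' ∈ Ball S (m + n) := by
  obtain ⟨l, h1, h2, h3⟩ := hw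
  obtain ⟨l', h1', h2', h3'⟩ := hw'
  refine ⟨l ++ l', by simp; omega, ?_, by simp [h3, h3']⟩
  intro s hs
  rcases List.mem_append.1 hs with h | h
  · exact h2 s h
  · exact h2' s h

lemma Ball_succ {w : Circ ≃ₜ Circ} {n : ℕ} (hw : w ∈ Ball S (n + 1)) :
    w = 1 ∨ ∃ s ∈ S, ∃ w' ∈ Ball S n, w = s * w' := by
  obtain ⟨l, h1, h2, h3⟩ := hw
  cases l with
  | nil => left; simpa using h3.symm
  | cons s l =>
    right
    refine ⟨s, h2 s (by simp), l.prod, ⟨l, by simpa using h1, fun t ht => h2 t (by simp [ht]),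
      rfl⟩, ?_⟩
    rw [← h3, List.prod_cons]

/-- packing bound -/
lemma card_le {T : Finset Circ} {r : ℝ} (hr : 0 < r)
    (h : ∀ x ∈ T, ∀ y ∈ T, x ≠ y → r ≤ dist x y) : (T.card : ℝ) ≤ 1 + 2 / r := by
  classical
  by_cases hT : T.card ≤ 1
  · have h1 : (T.card : ℝ) ≤ 1 := by exact_mod_cast hT
    have : 0 < 2 / r := by positivity
    linarith
  have hr2 : r ≤ 1 / 2 := by
    obtain ⟨x, hx, y, hy, hxy⟩ := Finset.one_lt_card.1 (not_le.1 hT)
    exact (h x hx y hy hxy).trans (dist_le_half x y)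
  have hdisj : (T : Set Circ).PairwiseDisjoint (fun x => Metric.closedBall x (r / 4)) := by
    intro x hx y hy hxy
    rw [Function.onFun, Set.disjoint_left]
    intro z hz1 hz2
    rw [Metric.mem_closedBall] at hz1 hz2
    have h1 := h x hx y hy hxy
    have h2 := dist_triangle_left x y z
    linarith
  have h1 : (MeasureTheory.volume (⋃ x ∈ T, Metric.closedBall x (r / 4)) : ℝ≥0∞) =
      ∑ x ∈ T, MeasureTheory.volume (Metric.closedBall x (r / 4)) :=
    MeasureTheory.measure_biUnion_finset hdisj (fun x _ => Metric.isClosed_closedBall.measurableSet)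
  have h2 : ∀ x : Circ, MeasureTheory.volume (Metric.closedBall x (r / 4)) =
      ENNReal.ofReal (r / 2) := by
    intro x
    rw [AddCircle.volume_closedBall]
    congr 1
    rw [min_eq_right (by linarith)]
    ring
  rw [Finset.sum_congr rfl (fun x _ => h2 x), Finset.sum_const, nsmul_eq_mul] at h1
  have h3 : (MeasureTheory.volume (⋃ x ∈ T, Metric.closedBall x (r / 4)) : ℝ≥0∞) ≤ 1 := by
    refine (MeasureTheory.measure_mono (Set.subset_univ _)).trans ?_
    rw [AddCircle.measure_univ]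
    simp
  rw [h1] at h3
  have h4 : ((T.card : ℝ≥0∞) * ENNReal.ofReal (r / 2)) = ENNReal.ofReal (T.card * (r / 2)) := by
    rw [ENNReal.ofReal_mul (by positivity), ENNReal.ofReal_natCast]
  rw [h4, ← ENNReal.ofReal_one, ENNReal.ofReal_le_ofReal_iff (by norm_num)] at h3
  have h5 : (T.card : ℝ) ≤ 2 / r := by
    rw [le_div_iff₀ hr]
    linarith
  linarith

/-- uniform continuity of the elements of a ball -/
lemma exists_mod (hfin : S.Finite) (n : ℕ) : ∀ δ : ℝ, 0 < δ → ∃ ρ : ℝ, 0 < ρ ∧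
    ∀ x y : Circ, dist x y < ρ → ∀ w ∈ Ball S n, dist (w x) (w y) < δ := by
  induction n with
  | zero =>
    intro δ hδ
    refine ⟨δ, hδ, fun x y hxy w hw => ?_⟩
    obtain ⟨l, h1, -, h3⟩ := hw
    have : l = [] := List.length_eq_zero_iff.1 (by omega)
    rw [this, List.prod_nil] at h3
    rw [← h3]
    exact hxy
  | succ n ih =>
    intro δ hδ
    have hev : ∀ᶠ ρ in nhdsWithin (0:ℝ) (Set.Ioi 0), ∀ s ∈ S, ∀ x y : Circ, dist x y < ρ →
        dist (s x) (s y) < δ := by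
      rw [Filter.eventually_all_finite hfin]
      intro s _
      have huc : UniformContinuous s := CompactSpace.uniformContinuous_of_continuous s.continuous
      obtain ⟨ρ0, hρ0, h⟩ := Metric.uniformContinuous_iff.1 huc δ hδ
      have : Set.Ioc (0:ℝ) ρ0 ∈ nhdsWithin (0:ℝ) (Set.Ioi 0) := Ioc_mem_nhdsGT hρ0
      filter_upwards [this] with ρ hρ x y hxy
      exact h (lt_of_lt_of_le hxy hρ.2)
    obtain ⟨ρ1, hρ1, hρ10⟩ := (hev.and self_mem_nhdsWithin).exists
    obtain ⟨ρ2, hρ2, h2⟩ := ih ρ1 hρ10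
    refine ⟨min ρ2 δ, lt_min hρ2 hδ, fun x y hxy w hw => ?_⟩
    rcases Ball_succ hw with h | ⟨s, hs, w', hw', h⟩
    · rw [h]
      exact lt_of_lt_of_le hxy (min_le_right _ _)
    · rw [h]
      exact hρ1 s hs _ _ (h2 x y (lt_of_lt_of_le hxy (min_le_left _ _)) w' hw')

lemma sep_bdd (hfin : S.Finite) (n : ℕ) {δ : ℝ} (hδ : 0 < δ) :
    BddAbove {k | ∃ A : Finset Circ, Separated S n δ A ∧ A.card = k} := by
  obtain ⟨ρ, hρ, h⟩ := exists_mod hfin n δ hδ
  obtain ⟨N, hN⟩ := exists_nat_ge (1 + 2 / ρ)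
  refine ⟨N, ?_⟩
  rintro k ⟨A, hA, rfl⟩
  have h1 : (A.card : ℝ) ≤ 1 + 2 / ρ := by
    apply card_le hρ
    intro x hx y hy hxy
    by_contra hlt
    obtain ⟨w, hw, hwd⟩ := hA x hx y hy hxy
    have := h x y (not_le.1 hlt) w hw
    linarith
  exact_mod_cast h1.trans hN

lemma card_le_sepNumber (hfin : S.Finite) {n : ℕ} {δ : ℝ} (hδ : 0 < δ) {A : Finset Circ}
    (hA : Separated S n δ A) : A.card ≤ sepNumber S n δ :=
  le_csSup (sep_bdd hfin n hδ) ⟨A, hA, rfl⟩

lemma exists_max (hfin : S.Finite) (n : ℕ) {δ : ℝ} (hδ : 0 < δ) :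
    ∃ A : Finset Circ, Separated S n δ A ∧ A.card = sepNumber S n δ := by
  have := Nat.sSup_mem (s := {k | ∃ A : Finset Circ, Separated S n δ A ∧ A.card = k})
    ⟨0, ∅, by intro x hx; simp at hx, by simp⟩ (sep_bdd hfin n hδ)
  exact this

/-- a maximal separated set is a net for the Bowen metric -/
lemma exists_net (hfin : S.Finite) (n : ℕ) {δ : ℝ} (hδ : 0 < δ) :
    ∃ A : Finset Circ, A.card = sepNumber S n δ ∧
      ∀ x : Circ, ∃ a ∈ A, ∀ w ∈ Ball S n, dist (w x) (w a) < δ := by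
  classical
  obtain ⟨A, hA, hc⟩ := exists_max hfin n hδ
  refine ⟨A, hc, fun x => ?_⟩
  by_contra hcon
  push Not at hcon
  have hxA : x ∉ A := by
    intro hx
    obtain ⟨w, -, hw⟩ := hcon x hx
    rw [dist_self] at hw
    linarith
  have hsep : Separated S n δ (insert x A) := by
    intro y hy z hz hyz
    rcases Finset.mem_insert.1 hy with h1 | h1
    · rcases Finset.mem_insert.1 hz with h2 | h2
      · exact absurd (h1.trans h2.symm) hyz
      · rw [h1]
        exact hcon z h2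
    · rcases Finset.mem_insert.1 hz with h2 | h2
      · rw [h2]
        obtain ⟨w, hw, hwd⟩ := hcon y h1
        exact ⟨w, hw, by rwa [dist_comm]⟩
      · exact hA y h1 z h2 hyz
  have h3 := card_le_sepNumber hfin hδ hsep
  rw [Finset.card_insert_of_notMem hxA, hc] at h3
  omega

lemma one_le_sepNumber (hfin : S.Finite) (n : ℕ) {δ : ℝ} (hδ : 0 < δ) : 1 ≤ sepNumber S n δ := by
  have h : Separated S n δ {(0 : Circ)} := by
    intro x hx y hy hxy
    simp only [Finset.mem_singleton] at hx hy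
    exact absurd (hx.trans hy.symm) hxy
  simpa using card_le_sepNumber hfin hδ h

lemma sepNumber_antitone (hfin : S.Finite) (n : ℕ) {δ δ' : ℝ} (hδ : 0 < δ) (h : δ ≤ δ') :
    sepNumber S n δ' ≤ sepNumber S n δ := by
  obtain ⟨A, hA, hc⟩ := exists_max hfin n (hδ.trans_le h)
  rw [← hc]
  apply card_le_sepNumber hfin hδ
  intro x hx y hy hxy
  obtain ⟨w, hw, hwd⟩ := hA x hx y hy hxy
  exact ⟨w, hw, h.trans hwd⟩

end Pool.Agent.Y689.CE
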