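import Pool.Agent.Y689.CE.Ent

/-!
# A Lipschitz conjugate bounds the geometric entropy
-/

set_option autoImplicit false
open Filter Topology
open scoped ENNReal NNReal

namespace Pool.Agent.Y689.CE

open Pool.Agent.Helper320.LC

variable {S : Set (Circ ≃ₜ Circ)}

/-- some homeomorphism conjugates all elements of `S` to maps with Lipschitz constant `L` -/
def ConjLip (S : Set (Circ ≃ₜ Circ)) (L : ℝ≥0) : Prop :=
  ∃ h : Circ ≃ₜ Circ, ∀ s ∈ S, LipschitzWith L (fun x => h (s (h.symm x)))

lemma conjLip_ball {L : ℝ≥0} (hL : 1 ≤ L) {h : Circ ≃ₜ Circ}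
    (hh : ∀ s ∈ S, LipschitzWith L (fun x => h (s (h.symm x)))) (n : ℕ) :
    ∀ w ∈ Ball S n, LipschitzWith (L ^ n) (fun x => h (w (h.symm x))) := by
  induction n with
  | zero =>
    intro w hw
    obtain ⟨l, h1, -, h3⟩ := hw
    have : l = [] := List.length_eq_zero_iff.1 (by omega)
    rw [this, List.prod_nil] at h3
    rw [← h3]
    have h4 : (fun x => h ((1 : Circ ≃ₜ Circ) (h.symm x))) = id := by
      funext x
      show h (h.symm x) = x
      simp
    rw [h4, pow_zero]
    exact LipschitzWith.id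
  | succ n ih =>
    intro w hw
    rcases Ball_succ hw with h1 | ⟨s, hs, w', hw', h1⟩
    · rw [h1]
      have h4 : (fun x => h ((1 : Circ ≃ₜ Circ) (h.symm x))) = id := by
        funext x
        show h (h.symm x) = x
        simp
      rw [h4]
      exact LipschitzWith.id.weaken (one_le_pow₀ hL)
    · rw [h1]
      have h2 : (fun x => h ((s * w' : Circ ≃ₜ Circ) (h.symm x))) =
          (fun x => h (s (h.symm x))) ∘ (fun x => h (w' (h.symm x))) := by
        funext x
        show h (s (w' (h.symm x))) = h (s (h.symm (h (w' (h.symm x)))))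
        simp
      rw [h2, pow_succ']
      exact (hh s hs).comp (ih w' hw')

lemma sep_le_of_conj (hfin : S.Finite) {L : ℝ≥0} (hL : 1 ≤ L) (hc : ConjLip S L) {δ : ℝ}
    (hδ : 0 < δ) : ∃ C : ℝ, 1 ≤ C ∧ ∀ n : ℕ, (sepNumber S n δ : ℝ) ≤ C * (L : ℝ) ^ n := by
  classical
  obtain ⟨h, hh⟩ := hc
  have huc : UniformContinuous h.symm :=
    CompactSpace.uniformContinuous_of_continuous h.symm.continuous
  obtain ⟨ρ, hρ, hρ2⟩ := Metric.uniformContinuous_iff.1 huc δ hδ
  refine ⟨1 + 2 / ρ, by have : 0 < 2 / ρ := by positivity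
                        linarith, fun n => ?_⟩
  have hLr : (1 : ℝ) ≤ L := by exact_mod_cast hL
  have hLn : (1 : ℝ) ≤ (L : ℝ) ^ n := one_le_pow₀ hLr
  obtain ⟨A, hA, hcard⟩ := exists_max hfin n hδ
  rw [← hcard, ← Finset.card_image_of_injective A h.injective]
  have h1 : ((A.image h).card : ℝ) ≤ 1 + 2 / (ρ / (L : ℝ) ^ n) := by
    apply card_le (by positivity)
    intro u hu v hv huv
    obtain ⟨x, hx, rfl⟩ := Finset.mem_image.1 hu
    obtain ⟨y, hy, rfl⟩ := Finset.mem_image.1 hv
    obtain ⟨w, hw, hwd⟩ := hA x hx y hy (fun e => huv (by rw [e]))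
    have h2 : ρ ≤ dist (h (w x)) (h (w y)) := by
      by_contra hlt
      have h3 := hρ2 (not_le.1 hlt)
      rw [Homeomorph.symm_apply_apply, Homeomorph.symm_apply_apply] at h3
      linarith
    have h3 := (conjLip_ball hL hh n w hw).dist_le_mul (h x) (h y)
    simp only [Homeomorph.symm_apply_apply] at h3
    rw [div_le_iff₀ (by positivity), mul_comm]
    refine h2.trans (h3.trans (le_of_eq ?_))
    push_cast
    ring
  refine h1.trans ?_
  have h2 : 2 / (ρ / (L : ℝ) ^ n) = 2 / ρ * (L : ℝ) ^ n := by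
    field_simp
  rw [h2]
  nlinarith

/-- a bound for the growth of the separation numbers bounds the entropy -/
lemma entropy_le_of {b : ℝ} (hb : 0 ≤ b)
    (h : ∀ δ : ℝ, 0 < δ → ∃ C : ℝ, 1 ≤ C ∧ ∀ n : ℕ, (sepNumber S n δ : ℝ) ≤ C * Real.exp (b * n)) :
    entropy S ≤ ENNReal.ofReal b := by
  unfold entropy
  apply iSup₂_le
  intro δ hδ
  obtain ⟨C, hC, hn⟩ := h δ hδ
  apply ENNReal.le_of_forall_pos_le_add
  intro e he _
  apply limsup_le_of_le
  · isBoundedDefault
  have hlim : Tendsto (fun n : ℕ => Real.log C / n) atTop (𝓝 0) :=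
    tendsto_const_div_atTop_nhds_zero_nat _
  have he' : (0:ℝ) < e := by exact_mod_cast he
  filter_upwards [hlim.eventually (gt_mem_nhds he'), eventually_gt_atTop 0] with n h1 h2
  have hn0 : (0:ℝ) < n := by exact_mod_cast h2
  have h3 : (e : ℝ≥0∞) = ENNReal.ofReal (e : ℝ) := by simp
  rw [h3, ← ENNReal.ofReal_add hb he'.le]
  apply ENNReal.ofReal_le_ofReal
  rw [div_le_iff₀ hn0]
  have h4 : Real.log (sepNumber S n δ) ≤ Real.log C + b * n := by
    rcases Nat.eq_zero_or_pos (sepNumber S n δ) with h5 | h5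
    · rw [h5]
      simp only [Nat.cast_zero, Real.log_zero]
      have := Real.log_nonneg hC
      positivity
    · have h6 : (0:ℝ) < sepNumber S n δ := by exact_mod_cast h5
      have h7 := Real.log_le_log h6 (hn n)
      rwa [Real.log_mul (by linarith) (Real.exp_pos _).ne', Real.log_exp] at h7
  have h8 : Real.log C < e * n := by
    have := (div_lt_iff₀ hn0).1 h1
    linarith
  linarith

/-- **Lower bound for the Lipschitz constants of all conjugates.** -/
theorem entropy_le (hfin : S.Finite) {L : ℝ≥0} (hc : ConjLip S L) :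
    entropy S ≤ ENNReal.ofReal (Real.log L) := by
  have hc' : ConjLip S (max L 1) := by
    obtain ⟨h, hh⟩ := hc
    exact ⟨h, fun s hs => (hh s hs).weaken (le_max_left _ _)⟩
  have hL1 : (1:ℝ) ≤ ((max L 1 : ℝ≥0) : ℝ) := by exact_mod_cast le_max_right L 1
  have h1 : entropy S ≤ ENNReal.ofReal (Real.log ((max L 1 : ℝ≥0) : ℝ)) := by
    apply entropy_le_of (Real.log_nonneg hL1)
    intro δ hδ
    obtain ⟨C, hC, hn⟩ := sep_le_of_conj hfin (le_max_right L 1) hc' hδ
    refine ⟨C, hC, fun n => (hn n).trans (le_of_eq ?_)⟩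
    congr 1
    rw [mul_comm, Real.exp_nat_mul, Real.exp_log (by linarith)]
  refine h1.trans ?_
  rcases le_total L 1 with h2 | h2
  · rw [max_eq_right h2]
    simp
  · rw [max_eq_left h2]

end Pool.Agent.Y689.CE
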