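import Pool.Agent.Y689.CE.Up

/-!
# Resilient pairs and positive entropy
-/

set_option autoImplicit false
open Filter Topology
open scoped ENNReal NNReal

namespace Pool.Agent.Y689.CE

open Pool.Agent.Helper320.LC

variable {S : Set (Circ ≃ₜ Circ)}

lemma inv_mem_Ball (hsym : ∀ s ∈ S, s⁻¹ ∈ S) {w : Circ ≃ₜ Circ} {n : ℕ} (hw : w ∈ Ball S n) :
    w⁻¹ ∈ Ball S n := by
  obtain ⟨l, h1, h2, h3⟩ := hw
  refine ⟨(l.map (fun s => s⁻¹)).reverse, by simpa using h1, ?_, ?_⟩
  · intro s hs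
    rw [List.mem_reverse, List.mem_map] at hs
    obtain ⟨t, ht, rfl⟩ := hs
    exact hsym t (h2 t ht)
  · rw [← h3, List.prod_inv_reverse]

lemma exists_Ball (hsym : ∀ s ∈ S, s⁻¹ ∈ S) {g : Circ ≃ₜ Circ} (hg : g ∈ Subgroup.closure S) :
    ∃ n, g ∈ Ball S n := by
  induction hg using Subgroup.closure_induction with
  | mem x hx => exact ⟨1, [x], by simp, by simpa using hx, by simp⟩
  | one => exact ⟨0, one_mem_Ball 0⟩
  | mul x y _ _ hx hy =>
    obtain ⟨m, hm⟩ := hx
    obtain ⟨n, hn⟩ := hy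
    exact ⟨m + n, Ball_mul hm hn⟩
  | inv x _ hx =>
    obtain ⟨m, hm⟩ := hx
    exact ⟨m, inv_mem_Ball hsym hm⟩

lemma coe_eq_iff {u v : ℝ} : (u : Circ) = (v : Circ) ↔ ∃ k : ℤ, u = v + k := by
  constructor
  · intro h
    have h1 : ((u - v : ℝ) : Circ) = 0 := by
      rw [AddCircle.coe_sub, h, sub_self]
    rw [AddCircle.coe_eq_zero_iff] at h1
    obtain ⟨k, hk⟩ := h1
    refine ⟨k, ?_⟩
    rw [zsmul_eq_mul, mul_one] at hk
    linarith
  · rintro ⟨k, rfl⟩
    rw [AddCircle.coe_add]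
    have h2 : ((k : ℝ) : Circ) = 0 := by
      rw [AddCircle.coe_eq_zero_iff]
      exact ⟨k, by simp⟩
    rw [h2, add_zero]

/-- the image of an arc under an orientation preserving homeomorphism -/
lemma arc_map {f : Circ ≃ₜ Circ} (hf : OrPres f) {t0 t5 t1 t2 : ℝ} (h05 : t0 < t5)
    (h50 : t5 < t0 + 1) (h12 : t1 < t2) (h21 : t2 < t1 + 1) (h0 : f (t0 : Circ) = (t1 : Circ))
    (h5 : f (t5 : Circ) = (t2 : Circ)) :
    ∀ t : ℝ, t0 ≤ t → t ≤ t5 → ∃ u : ℝ, t1 ≤ u ∧ u ≤ t2 ∧ f (t : Circ) = (u : Circ) := by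
  obtain ⟨F, hFc, hFm, hFl⟩ := hf
  obtain ⟨k, hk⟩ := coe_eq_iff.1 ((hFl t0).symm.trans h0)
  obtain ⟨j, hj⟩ := coe_eq_iff.1 ((hFl t5).symm.trans h5)
  -- `F t5 = t2 + k`
  have hlt : F t0 < F t5 := hFm h05
  have hjk : j = k := by
    have h1 : ¬ j ≤ k - 1 := by
      intro h
      have : (j : ℝ) ≤ k - 1 := by exact_mod_cast h
      linarith
    have h2 : ¬ k + 1 ≤ j := by
      intro h
      have h3 : (k : ℝ) + 1 ≤ j := by exact_mod_cast h
      have h4 : F t0 + 1 ∈ Set.Icc (F t0) (F t5) := ⟨by linarith, by linarith⟩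
      obtain ⟨y, hy, hyF⟩ := intermediate_value_Icc h05.le hFc.continuousOn h4
      have h5 : f (y : Circ) = f (t0 : Circ) := by
        rw [hFl, hFl, hyF]
        exact coe_eq_iff.2 ⟨1, by simp⟩
      have h6 := f.injective h5
      obtain ⟨i, hi⟩ := coe_eq_iff.1 h6
      have h7 : t0 < y := by
        rcases hy.1.lt_or_eq with h | h
        · exact h
        · rw [← h] at hyF
          linarith
      have h8 : (0 : ℝ) < i := by linarith
      have h9 : (i : ℝ) < 1 := by linarith [hy.2]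
      have h10 : (0 : ℤ) < i := by exact_mod_cast h8
      have h11 : i < (1 : ℤ) := by exact_mod_cast h9
      omega
    omega
  intro t ht0 ht5
  refine ⟨F t - k, ?_, ?_, ?_⟩
  · have := hFm.monotone ht0
    linarith
  · have := hFm.monotone ht5
    rw [hj, hjk] at this
    linarith
  · rw [hFl]
    exact coe_eq_iff.2 ⟨k, by ring⟩

lemma dist_ge {u v c : ℝ} (h1 : c ≤ v - u) (h2 : c ≤ 1 - (v - u)) :
    c ≤ dist (u : Circ) (v : Circ) := by
  rw [dist_comm, dist_eq_norm, ← AddCircle.coe_sub, AddCircle.norm_eq]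
  simp only [inv_one, one_mul, mul_one]
  generalize round (v - u) = m
  rcases le_or_gt m 0 with h | h
  · have h3 : (m : ℝ) ≤ 0 := by exact_mod_cast h
    exact le_trans (by linarith) (le_abs_self _)
  · have h3 : (1 : ℝ) ≤ m := by exact_mod_cast h
    exact le_trans (by linarith) (neg_le_abs _)

/-- products of two homeomorphisms -/
def Wd (f g : Circ ≃ₜ Circ) : List Bool → (Circ ≃ₜ Circ)
  | [] => 1
  | b :: l => (if b then f else g) * Wd f g l

/-- A ping-pong pair gives exponentially many separated points. -/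
lemma sep_of_pair (hfin : S.Finite) (hsym : ∀ s ∈ S, s⁻¹ ∈ S) {f g : Circ ≃ₜ Circ} {ℓ : ℕ}
    (hf : f ∈ Ball S ℓ) (hg : g ∈ Ball S ℓ) {J : Set Circ} {p : Circ}
    (hp : p ∈ J) (hfJ : ∀ x ∈ J, f x ∈ J) (hgJ : ∀ x ∈ J, g x ∈ J) {δ : ℝ} (hδ : 0 < δ)
    (hd : ∀ x ∈ J, ∀ y ∈ J, δ ≤ dist (f x) (g y)) (n : ℕ) :
    2 ^ n ≤ sepNumber S (ℓ * n) δ := by
  classical
  have hfi : f⁻¹ ∈ Ball S ℓ := inv_mem_Ball hsym hf
  have hgi : g⁻¹ ∈ Ball S ℓ := inv_mem_Ball hsym hg
  have hJ : ∀ l : List Bool, Wd f g l p ∈ J := by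
    intro l
    induction l with
    | nil => exact hp
    | cons b l ih =>
      cases b with
      | true => exact hfJ _ ih
      | false => exact hgJ _ ih
  have key : ∀ n : ℕ, ∀ l l' : List Bool, l.length = n → l'.length = n → l ≠ l' →
      ∃ w ∈ Ball S (ℓ * n), δ ≤ dist (w (Wd f g l p)) (w (Wd f g l' p)) := by
    intro n
    induction n with
    | zero =>
      intro l l' h1 h2 h3
      rw [List.length_eq_zero_iff] at h1 h2
      exact absurd (h1.trans h2.symm) h3
    | succ n ih =>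
      intro l l' h1 h2 h3
      cases l with
      | nil => simp at h1
      | cons b l =>
      cases l' with
      | nil => simp at h2
      | cons b' l' =>
      by_cases hb : b = b'
      · subst hb
        have hne : l ≠ l' := fun h => h3 (by rw [h])
        obtain ⟨w, hw, hwd⟩ := ih l l' (by simpa using h1) (by simpa using h2) hne
        cases b with
        | true =>
          refine ⟨w * f⁻¹, ?_, ?_⟩
          · have := Ball_mul hw hfi
            rwa [show ℓ * (n + 1) = ℓ * n + ℓ by ring]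
          · have h4 : ∀ k : List Bool, (w * f⁻¹) (Wd f g (true :: k) p) = w (Wd f g k p) := by
              intro k
              show w (f⁻¹ (f (Wd f g k p))) = _
              congr 1
              exact f.symm_apply_apply _
            rw [h4, h4]
            exact hwd
        | false =>
          refine ⟨w * g⁻¹, ?_, ?_⟩
          · have := Ball_mul hw hgi
            rwa [show ℓ * (n + 1) = ℓ * n + ℓ by ring]
          · have h4 : ∀ k : List Bool, (w * g⁻¹) (Wd f g (false :: k) p) = w (Wd f g k p) := by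
              intro k
              show w (g⁻¹ (g (Wd f g k p))) = _
              congr 1
              exact g.symm_apply_apply _
            rw [h4, h4]
            exact hwd
      · refine ⟨1, one_mem_Ball _, ?_⟩
        cases b with
        | true =>
          cases b' with
          | true => exact absurd rfl hb
          | false => exact hd _ (hJ l) _ (hJ l')
        | false =>
          cases b' with
          | true =>
            rw [dist_comm]
            exact hd _ (hJ l') _ (hJ l)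
          | false => exact absurd rfl hb
  -- the separated set
  let φ : List.Vector Bool n → Circ := fun v => Wd f g v.1 p
  have hinj : Function.Injective φ := by
    intro v v' h
    by_contra hne
    obtain ⟨w, -, hw⟩ := key n v.1 v'.1 v.2 v'.2 (fun e => hne (Subtype.ext e))
    have h' : Wd f g v.1 p = Wd f g v'.1 p := h
    rw [h', dist_self] at hw
    linarith
  have hcard : (Finset.univ.image φ).card = 2 ^ n := by
    rw [Finset.card_image_of_injective _ hinj, Finset.card_univ, card_vector, Fintype.card_bool]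
  rw [← hcard]
  apply card_le_sepNumber hfin hδ
  intro x hx y hy hxy
  obtain ⟨v, -, rfl⟩ := Finset.mem_image.1 hx
  obtain ⟨v', -, rfl⟩ := Finset.mem_image.1 hy
  exact key n v.1 v'.1 v.2 v'.2 (fun e => hxy (by simp only [φ]; rw [e]))

/-- exponentially many separated points: a lower bound for the entropy -/
lemma entropy_ge_of {δ : ℝ} (hδ : 0 < δ) {ℓ : ℕ} (hℓ : 0 < ℓ)
    (h : ∀ n : ℕ, 2 ^ n ≤ sepNumber S (ℓ * n) δ) :
    ENNReal.ofReal (Real.log 2 / ℓ) ≤ entropy S := by
  have hℓr : (0:ℝ) < ℓ := by exact_mod_cast hℓ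
  refine le_trans ?_ (le_iSup₂ (f := fun (δ : ℝ) (_ : 0 < δ) =>
        limsup (fun n : ℕ => ENNReal.ofReal (Real.log (sepNumber S n δ) / n)) atTop) δ hδ)
  apply le_limsup_of_frequently_le _ (by isBoundedDefault)
  rw [frequently_atTop]
  intro N
  refine ⟨ℓ * (N + 1), by nlinarith, ?_⟩
  apply ENNReal.ofReal_le_ofReal
  have hn0 : (0:ℝ) < ((ℓ * (N + 1) : ℕ) : ℝ) := by
    have : 0 < ℓ * (N + 1) := by positivity
    exact_mod_cast this
  have h4 : ((N + 1 : ℕ) : ℝ) * Real.log 2 ≤ Real.log (sepNumber S (ℓ * (N + 1)) δ) := by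
    rw [← Real.log_pow]
    apply Real.log_le_log (by positivity)
    exact_mod_cast h (N + 1)
  rw [le_div_iff₀ hn0]
  have h5 : Real.log 2 / ℓ * ((ℓ * (N + 1) : ℕ) : ℝ) = ((N + 1 : ℕ) : ℝ) * Real.log 2 := by
    push_cast
    field_simp
  rw [h5]
  exact h4

/-- Resilient pairs of orientation preserving elements of a ball give positive entropy. -/
theorem entropy_ge (hfin : S.Finite) (hsym : ∀ s ∈ S, s⁻¹ ∈ S) {ℓ : ℕ} (hℓ : 0 < ℓ)
    (hres : JA.HasPairIn {g | g ∈ Ball S ℓ ∧ OrPres g}) :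
    ENNReal.ofReal (Real.log 2 / ℓ) ≤ entropy S := by
  obtain ⟨f, ⟨hf, hfo⟩, g, ⟨hg, hgo⟩, t₀, t₁, t₂, t₃, t₄, t₅, h01, h12, h23, h34, h45, h50, hf0,
    hf5, hg0, hg5⟩ := hres
  have hfm := arc_map hfo (by linarith) h50 h12 (by linarith) hf0 hf5
  have hgm := arc_map hgo (by linarith) h50 h34 (by linarith) hg0 hg5
  obtain ⟨δ, hδdef⟩ : ∃ δ : ℝ, δ = min (t₃ - t₂) (1 - (t₄ - t₁)) := ⟨_, rfl⟩
  have hδ : 0 < δ := by
    rw [hδdef]
    exact lt_min (by linarith) (by linarith)
  apply entropy_ge_of hδ hℓ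
  apply sep_of_pair hfin hsym hf hg
    (J := {x | ∃ t : ℝ, t₀ ≤ t ∧ t ≤ t₅ ∧ x = (t : Circ)}) (p := (t₀ : Circ))
    ⟨t₀, le_rfl, by linarith, rfl⟩
    (by
      rintro x ⟨t, h1, h2, rfl⟩
      obtain ⟨u, hu1, hu2, hu⟩ := hfm t h1 h2
      exact ⟨u, by linarith, by linarith, hu⟩)
    (by
      rintro x ⟨t, h1, h2, rfl⟩
      obtain ⟨u, hu1, hu2, hu⟩ := hgm t h1 h2
      exact ⟨u, by linarith, by linarith, hu⟩) hδ
  rintro x ⟨t, h1, h2, rfl⟩ y ⟨t', h1', h2', rfl⟩
  obtain ⟨u, hu1, hu2, hu⟩ := hfm t h1 h2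
  obtain ⟨v, hv1, hv2, hv⟩ := hgm t' h1' h2'
  rw [hu, hv]
  apply dist_ge
  · rw [hδdef]
    exact (min_le_left _ _).trans (by linarith)
  · rw [hδdef]
    exact (min_le_right _ _).trans (by linarith)

/-- Resilient pairs of orientation preserving elements give positive entropy. -/
theorem entropy_pos (hfin : S.Finite) (hsym : ∀ s ∈ S, s⁻¹ ∈ S)
    (hres : JA.HasPairIn {g | g ∈ Subgroup.closure S ∧ OrPres g}) : entropy S ≠ 0 := by
  obtain ⟨f, ⟨hf, hfo⟩, g, ⟨hg, hgo⟩, hrest⟩ := hres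
  obtain ⟨m1, hm1⟩ := exists_Ball hsym hf
  obtain ⟨m2, hm2⟩ := exists_Ball hsym hg
  have h := entropy_ge hfin hsym (ℓ := m1 + m2 + 1) (by omega)
    ⟨f, ⟨Ball_mono (by omega) hm1, hfo⟩, g, ⟨Ball_mono (by omega) hm2, hgo⟩, hrest⟩
  intro h0
  rw [h0] at h
  have h1 : 0 < Real.log 2 / ((m1 + m2 + 1 : ℕ) : ℝ) := by
    have : 0 < Real.log 2 := Real.log_pos (by norm_num)
    positivity
  exact absurd (ENNReal.ofReal_pos.2 h1) (not_lt.2 h)

/-- The entropy vanishes exactly when there is no resilient pair. -/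
theorem entropy_eq_zero_iff (hfin : S.Finite) (hsym : ∀ s ∈ S, s⁻¹ ∈ S)
    (hC1 : ∀ s ∈ S, IsC1Diffeo s) :
    entropy S = 0 ↔ ¬ JA.HasPairIn {g | g ∈ Subgroup.closure S ∧ OrPres g} := by
  constructor
  · intro h0 hres
    exact entropy_pos hfin hsym hres h0
  · intro hres
    rw [← nonpos_iff_eq_zero]
    apply ENNReal.le_of_forall_pos_le_add
    intro e he _
    rw [zero_add]
    have h1 := entropy_le hfin (main_robust S hfin hsym hC1 hres e (by exact_mod_cast he))
    rw [Real.coe_toNNReal _ (Real.exp_pos _).le, Real.log_exp] at h1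
    simpa using h1

/-- Finiteness of the entropy. -/
theorem entropy_lt_top (hfin : S.Finite)
    (hC1 : ∀ s ∈ S, IsC1Diffeo s) : entropy S ≠ ⊤ := by
  obtain ⟨D, hD, -, ⟨A, hA, hAb⟩, -⟩ := JB.exists_deriv S hfin hC1
  have h : ConjLip S (Real.toNNReal (Real.exp A)) := by
    refine ⟨Homeomorph.refl Circ, fun s hs => ?_⟩
    apply LipschitzWith.of_dist_le_mul
    intro x y
    show dist (s x) (s y) ≤ _
    obtain ⟨F, hF, hne, hl, hDF⟩ := hD s hs
    obtain ⟨a, b, rfl, rfl, hab⟩ := JB.exists_rep x y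
    have hlip : LipschitzWith (Real.toNNReal (Real.exp A)) F := by
      apply lipschitzWith_of_nnnorm_deriv_le (hF.differentiable (by norm_num))
      intro x
      rw [← NNReal.coe_le_coe, coe_nnnorm, Real.norm_eq_abs, ← hDF,
        Real.coe_toNNReal _ (Real.exp_pos _).le]
      exact (hAb s hs _).2
    rw [hl, hl, ← hab]
    refine (JB.dist_coe_le _ _).trans ?_
    have h1 := hlip.dist_le_mul a b
    rw [Real.dist_eq, Real.dist_eq] at h1
    exact h1
  exact ne_top_of_le_ne_top ENNReal.ofReal_ne_top (entropy_le hfin h)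

end Pool.Agent.Y689.CE
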