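import Pool.Agent.Y689.CE.Low

/-!
# Lipschitz conjugates with constants close to the exponential of the geometric entropy
-/

set_option autoImplicit false
open Filter Topology
open scoped ENNReal NNReal

namespace Pool.Agent.Y689.CE

open Pool.Agent.Helper320.LC

variable {S : Set (Circ ≃ₜ Circ)} {D : (Circ ≃ₜ Circ) → Circ → ℝ} {A : ℝ}

lemma fl_mem_Ball {a : ℕ → (Circ ≃ₜ Circ)} (ha : ∀ j, a j ∈ S) (m : ℕ) : fl a m ∈ Ball S m := by
  induction m with
  | zero => exact one_mem_Ball 0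
  | succ m ih => exact mul_mem_Ball (ha m) ih

/-- bounded distortion along a word -/
lemma dist_fl (hB : Base S D A) {η δ : ℝ}
    (hest : ∀ s ∈ S, ∀ x y, (dist x y ≤ δ ∨ dist (s x) (s y) ≤ δ) →
        Real.exp (-η) * D s x * dist x y ≤ dist (s x) (s y) ∧
        dist (s x) (s y) ≤ Real.exp η * D s x * dist x y)
    {a : ℕ → (Circ ≃ₜ Circ)} (ha : ∀ j, a j ∈ S) {x y : Circ} {n : ℕ}
    (hxy : ∀ w ∈ Ball S n, dist (w x) (w y) < δ) :
    ∀ m ≤ n, Real.exp (-η * m + Ls D a x m) * dist x y ≤ dist (fl a m x) (fl a m y) := by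
  intro m
  induction m with
  | zero =>
    intro _
    simp
  | succ m ih =>
    intro hm
    have h1 := ih (by omega)
    have h2 := hxy (fl a m) (Ball_mono (by omega) (fl_mem_Ball ha m))
    have h3 := (hest (a m) (ha m) (fl a m x) (fl a m y) (Or.inl h2.le)).1
    have hp := hB.pos (ha m) (fl a m x)
    rw [fl_succ_apply, fl_succ_apply]
    refine le_trans (le_of_eq ?_) ((mul_le_mul_of_nonneg_left h1
      (mul_pos (Real.exp_pos (-η)) hp).le).trans h3)
    rw [Ls_succ]
    have h4 : -η * ((m + 1 : ℕ) : ℝ) + (Ls D a x m + Real.log (D (a m) (fl a m x))) =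
        -η + (Real.log (D (a m) (fl a m x))) + (-η * m + Ls D a x m) := by
      push_cast
      ring
    rw [h4, Real.exp_add, Real.exp_add, Real.exp_log hp]
    ring

/-- pointwise bound of the derivatives of the words of length `n` by a net -/
lemma exp_Ls_le (hB : Base S D A) {η δ : ℝ} (hη : 0 ≤ η) (hδ1 : δ ≤ 1)
    (hest : ∀ s ∈ S, ∀ x y, (dist x y ≤ δ ∨ dist (s x) (s y) ≤ δ) →
        Real.exp (-η) * D s x * dist x y ≤ dist (s x) (s y) ∧
        dist (s x) (s y) ≤ Real.exp η * D s x * dist x y)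
    {a : ℕ → (Circ ≃ₜ Circ)} (ha : ∀ j, a j ∈ S) {x y : Circ} {n : ℕ}
    (hxy : ∀ w ∈ Ball S n, dist (w x) (w y) < δ) :
    Real.exp (Ls D a x n) ≤ Real.exp (η * n) * (1 / max (dist x y) (Real.exp (-A * n))) := by
  have hmaxpos : 0 < max (dist x y) (Real.exp (-A * n)) := lt_max_of_lt_right (Real.exp_pos _)
  rw [mul_one_div, le_div_iff₀ hmaxpos, mul_max_of_nonneg _ _ (Real.exp_pos _).le]
  apply max_le
  · have h1 := dist_fl hB hest ha hxy n le_rfl
    have h2 := hxy (fl a n) (fl_mem_Ball ha n)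
    have h3 : Real.exp (-η * n + Ls D a x n) * dist x y ≤ 1 := by linarith
    have h4 : Real.exp (Ls D a x n) * dist x y =
        Real.exp (η * n) * (Real.exp (-η * n + Ls D a x n) * dist x y) := by
      rw [← mul_assoc, ← Real.exp_add]
      congr 2
      ring
    rw [h4]
    calc _ ≤ Real.exp (η * n) * 1 := mul_le_mul_of_nonneg_left h3 (Real.exp_pos _).le
      _ = _ := mul_one _
  · rw [← Real.exp_add]
    apply Real.exp_le_exp.2
    have h1 := Ls_ub hB ha x n
    have h2 : 0 ≤ η * n := by positivity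
    linarith

/-- the dominating function -/
noncomputable def Dom (A η ε : ℝ) (n : ℕ) (E : Finset Circ) (x : Circ) : ℝ :=
  Real.exp ((η - ε) * n) * ∑ z ∈ E, (1 / max (dist x z) (Real.exp (-A * n)))

lemma Dom_int (A η ε : ℝ) (n L : ℕ) (E : Finset Circ)
    (hL : (1/2 : ℝ) ^ (L + 1) ≤ Real.exp (-A * n)) :
    ∫⁻ x : Circ, ENNReal.ofReal (Dom A η ε n E x) ≤
      ENNReal.ofReal (Real.exp ((η - ε) * n) * (E.card * (4 * (L + 1)))) := by
  have hm : ∀ z : Circ, Measurable
      (fun x : Circ => ENNReal.ofReal (1 / max (dist x z) (Real.exp (-A * n)))) := by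
    intro z
    apply ENNReal.measurable_ofReal.comp
    apply Measurable.const_div
    exact ((continuous_id.dist continuous_const).max continuous_const).measurable
  have h1 : ∀ x : Circ, ENNReal.ofReal (Dom A η ε n E x) =
      ENNReal.ofReal (Real.exp ((η - ε) * n)) * ∑ z ∈ E,
        ENNReal.ofReal (1 / max (dist x z) (Real.exp (-A * n))) := by
    intro x
    unfold Dom
    rw [ENNReal.ofReal_mul (Real.exp_pos _).le, ENNReal.ofReal_sum_of_nonneg]
    intro z _
    positivity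
  simp_rw [h1]
  rw [MeasureTheory.lintegral_const_mul _ (Finset.measurable_fun_sum _ fun z _ => hm z),
    MeasureTheory.lintegral_finsetSum _ (fun z _ => hm z), ENNReal.ofReal_mul (Real.exp_pos _).le]
  gcongr
  calc ∑ z ∈ E, ∫⁻ x : Circ, ENNReal.ofReal (1 / max (dist x z) (Real.exp (-A * n)))
      ≤ ∑ z ∈ E, ENNReal.ofReal (4 * (L + 1)) :=
        Finset.sum_le_sum fun z _ => JD.lint_inv_dist z _ L hL
    _ = _ := by
      rw [Finset.sum_const, nsmul_eq_mul, ENNReal.ofReal_mul (p := (E.card : ℝ)) (Nat.cast_nonneg _),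
        ENNReal.ofReal_natCast]

/-- The density is integrable above the entropy. -/
theorem density_above (hfin : S.Finite) (hSne : S.Nonempty) (hB : Base S D A)
    (hcont : ∀ s ∈ S, Continuous (D s))
    (hest : ∀ η > 0, ∃ δ > 0, ∀ s ∈ S, ∀ x y, (dist x y ≤ δ ∨ dist (s x) (s y) ≤ δ) →
        Real.exp (-η) * D s x * dist x y ≤ dist (s x) (s y) ∧
        dist (s x) (s y) ≤ Real.exp η * D s x * dist x y)
    {ε : ℝ} (hent : entropy S < ENNReal.ofReal ε) :
    ∃ M : Circ → ℝ≥0∞, Measurable M ∧ (∀ x, 1 ≤ M x) ∧ ∫⁻ x, M x ≠ ∞ ∧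
      ∀ s ∈ S, ∀ x, ENNReal.ofReal (D s x) * M (s x) ≤ ENNReal.ofReal (Real.exp ε) * M x := by
  refine ⟨Mx S D ε, Mx_measurable hB hcont ε, one_le_Mx hSne D ε, ?_,
    fun s hs x => Mx_step hB ε hs x⟩
  have hε : 0 < ε := by
    rw [← ENNReal.ofReal_pos]
    exact lt_of_le_of_lt bot_le hent
  -- a number between the entropy and `ε`
  obtain ⟨b, hb1, hb2⟩ := ENNReal.lt_iff_exists_nnreal_btwn.1 hent
  have hbε : (b : ℝ) < ε := by
    have h1 : (b : ℝ≥0∞) = ENNReal.ofReal (b : ℝ) := by simp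
    rw [h1, ENNReal.ofReal_lt_ofReal_iff hε] at hb2
    exact hb2
  obtain ⟨η, hηdef⟩ : ∃ η : ℝ, η = (ε - b) / 2 := ⟨_, rfl⟩
  have hη : 0 < η := by rw [hηdef]; linarith
  obtain ⟨δ₁, hδ₁, hest1⟩ := hest η hη
  obtain ⟨δ, hδdef⟩ : ∃ δ : ℝ, δ = min δ₁ 1 := ⟨_, rfl⟩
  have hδ : 0 < δ := by rw [hδdef]; exact lt_min hδ₁ (by norm_num)
  have hδ1 : δ ≤ 1 := by rw [hδdef]; exact min_le_right _ _
  have hδδ : δ ≤ δ₁ := by rw [hδdef]; exact min_le_left _ _
  have hest2 : ∀ s ∈ S, ∀ x y, (dist x y ≤ δ ∨ dist (s x) (s y) ≤ δ) →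
        Real.exp (-η) * D s x * dist x y ≤ dist (s x) (s y) ∧
        dist (s x) (s y) ≤ Real.exp η * D s x * dist x y := by
    intro s hs x y hxy
    apply hest1 s hs x y
    rcases hxy with h | h
    · exact Or.inl (h.trans hδδ)
    · exact Or.inr (h.trans hδδ)
  -- growth of the separation numbers
  have hgrow : ∃ C : ℝ, 0 ≤ C ∧ ∀ n : ℕ, (sepNumber S n δ : ℝ) ≤ C * Real.exp (b * n) := by
    have h1 : limsup (fun n : ℕ => ENNReal.ofReal (Real.log (sepNumber S n δ) / n)) atTop < b :=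
      lt_of_le_of_lt (le_iSup₂ (f := fun (δ : ℝ) (_ : 0 < δ) =>
        limsup (fun n : ℕ => ENNReal.ofReal (Real.log (sepNumber S n δ) / n)) atTop) δ hδ) hb1
    have h2 := eventually_lt_of_limsup_lt h1
    obtain ⟨N, hN⟩ := eventually_atTop.1 h2
    refine ⟨1 + ∑ n ∈ Finset.range (N + 1), (sepNumber S n δ : ℝ), by positivity, fun n => ?_⟩
    have hb0 : (0:ℝ) ≤ b := b.2
    have he1 : (1:ℝ) ≤ Real.exp (b * n) := Real.one_le_exp (by positivity)
    have hs0 : (0:ℝ) ≤ ∑ n ∈ Finset.range (N + 1), (sepNumber S n δ : ℝ) :=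
      Finset.sum_nonneg fun i _ => Nat.cast_nonneg _
    by_cases hn : n ≤ N
    · have h3 : (sepNumber S n δ : ℝ) ≤ ∑ n ∈ Finset.range (N + 1), (sepNumber S n δ : ℝ) :=
        Finset.single_le_sum (f := fun n => (sepNumber S n δ : ℝ)) (fun i _ => Nat.cast_nonneg _)
          (Finset.mem_range.2 (by omega))
      nlinarith
    · have h3 := hN n (by omega)
      have hn0 : (0:ℝ) < n := by
        have : 0 < n := by omega
        exact_mod_cast this
      have hs1 : (0:ℝ) < sepNumber S n δ := by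
        have := one_le_sepNumber (S := S) hfin n hδ
        exact_mod_cast this
      have h4 : Real.log (sepNumber S n δ) / n ≤ b := by
        have h5 : (b : ℝ≥0∞) = ENNReal.ofReal (b : ℝ) := by simp
        rw [h5] at h3
        by_contra hlt
        push Not at hlt
        have := ENNReal.ofReal_le_ofReal hlt.le
        exact absurd h3 (not_lt.2 this)
      rw [div_le_iff₀ hn0, Real.log_le_iff_le_exp hs1] at h4
      nlinarith
  obtain ⟨C, hC0, hC⟩ := hgrow
  choose E hE1 hE2 using fun n : ℕ => exists_net (S := S) hfin n hδ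
  -- pointwise bound
  have hbound : ∀ x : Circ, Mx S D ε x ≤ ∑' n, ENNReal.ofReal (Dom A η ε n (E n) x) := by
    intro x
    unfold Mx
    apply iSup_le
    intro n
    apply iSup_le
    rintro ⟨a, ha⟩
    refine le_trans ?_ (ENNReal.le_tsum n)
    apply ENNReal.ofReal_le_ofReal
    obtain ⟨z, hz, hzx⟩ := hE2 n x
    have h1 := exp_Ls_le hB hη.le hδ1 hest2 ha hzx
    have h2 : 1 / max (dist x z) (Real.exp (-A * n)) ≤
        ∑ z ∈ E n, (1 / max (dist x z) (Real.exp (-A * n))) := by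
      apply Finset.single_le_sum (f := fun z => 1 / max (dist x z) (Real.exp (-A * n))) _ hz
      intro z' _
      positivity
    unfold Dom
    have h3 : Real.exp ((η - ε) * n) = Real.exp (-ε * n) * Real.exp (η * n) := by
      rw [← Real.exp_add]
      congr 1
      ring
    rw [Real.exp_add, h3, mul_assoc]
    apply mul_le_mul_of_nonneg_left _ (Real.exp_pos _).le
    exact h1.trans (mul_le_mul_of_nonneg_left h2 (Real.exp_pos _).le)
  obtain ⟨c1, hc1⟩ : ∃ c1 : ℕ, (1/2 : ℝ) ^ c1 ≤ Real.exp (-A) := by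
    obtain ⟨n, hn⟩ := exists_pow_lt_of_lt_one (Real.exp_pos (-A)) (show (1/2 : ℝ) < 1 by norm_num)
    exact ⟨n, hn.le⟩
  have hLA : ∀ n : ℕ, (1/2 : ℝ) ^ (c1 * n + 1) ≤ Real.exp (-A * n) := by
    intro n
    calc (1/2 : ℝ) ^ (c1 * n + 1) ≤ (1/2 : ℝ) ^ (c1 * n) :=
          pow_le_pow_of_le_one (by norm_num) (by norm_num) (by omega)
      _ = ((1/2 : ℝ) ^ c1) ^ n := pow_mul _ _ _
      _ ≤ (Real.exp (-A)) ^ n := pow_le_pow_left₀ (by positivity) hc1 n
      _ = _ := by
        rw [← Real.exp_nat_mul]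
        congr 1
        ring
  have hmeas : ∀ n, Measurable (fun x : Circ => ENNReal.ofReal (Dom A η ε n (E n) x)) := by
    intro n
    apply ENNReal.measurable_ofReal.comp
    unfold Dom
    apply Measurable.const_mul
    apply Finset.measurable_fun_sum
    intro z _
    apply Measurable.const_div
    exact ((continuous_id.dist continuous_const).max continuous_const).measurable
  have hint : ∫⁻ x : Circ, Mx S D ε x ≤ ∑' n : ℕ, ENNReal.ofReal
      (Real.exp ((η - ε) * n) * ((E n).card * (4 * ((c1 * n : ℕ) + 1)))) := by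
    calc ∫⁻ x : Circ, Mx S D ε x ≤ ∫⁻ x : Circ, ∑' n : ℕ, ENNReal.ofReal (Dom A η ε n (E n) x) :=
          MeasureTheory.lintegral_mono hbound
      _ = ∑' n : ℕ, ∫⁻ x : Circ, ENNReal.ofReal (Dom A η ε n (E n) x) :=
          MeasureTheory.lintegral_tsum (fun n => (hmeas n).aemeasurable)
      _ ≤ _ := by
          gcongr with n
          exact Dom_int A η ε n (c1 * n) (E n) (hLA n)
  refine ne_of_lt (lt_of_le_of_lt hint ?_)
  have hle : ∀ n : ℕ, Real.exp ((η - ε) * n) * ((E n).card * (4 * (((c1 * n : ℕ) : ℝ) + 1))) ≤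
      (4 * C) * ((c1 + 1) * ((n : ℝ) + 1)) ^ 1 * Real.exp (-η * n) := by
    intro n
    have h1 : ((E n).card : ℝ) ≤ C * Real.exp (b * n) := by
      rw [hE1 n]
      exact hC n
    have h2 : (4 * (((c1 * n : ℕ) : ℝ) + 1)) ≤ 4 * ((c1 + 1) * ((n : ℝ) + 1)) := by
      push_cast
      have h3 : (0:ℝ) ≤ c1 := Nat.cast_nonneg _
      have h4 : (0:ℝ) ≤ n := Nat.cast_nonneg _
      nlinarith
    have h5 : Real.exp ((η - ε) * n) * Real.exp (b * n) = Real.exp (-η * n) := by
      rw [← Real.exp_add]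
      congr 1
      rw [hηdef]
      ring
    calc Real.exp ((η - ε) * n) * ((E n).card * (4 * (((c1 * n : ℕ) : ℝ) + 1)))
        ≤ Real.exp ((η - ε) * n) * ((C * Real.exp (b * n)) * (4 * ((c1 + 1) * ((n : ℝ) + 1)))) := by
          apply mul_le_mul_of_nonneg_left _ (Real.exp_pos _).le
          apply mul_le_mul h1 h2 (by positivity) (by positivity)
      _ = (4 * C) * ((c1 + 1) * ((n : ℝ) + 1)) ^ 1 *
            (Real.exp ((η - ε) * n) * Real.exp (b * n)) := by ring
      _ = _ := by rw [h5]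
  have hsum : Summable (fun n : ℕ => Real.exp ((η - ε) * n) *
      ((E n).card * (4 * (((c1 * n : ℕ) : ℝ) + 1)))) := by
    refine Summable.of_nonneg_of_le (fun n => by positivity) hle ?_
    exact summable_poly (4 * C) (c1 + 1) η hη 1
  rw [← ENNReal.ofReal_tsum_of_nonneg (fun n => by positivity) hsum]
  exact ENNReal.ofReal_lt_top

/-- **Upper bound**: conjugates with Lipschitz constant `exp ε` for every `ε` above the
entropy. -/
theorem conj_above (hfin : S.Finite) (hsym : ∀ s ∈ S, s⁻¹ ∈ S) (hC1 : ∀ s ∈ S, IsC1Diffeo s)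
    {ε : ℝ} (hent : entropy S < ENNReal.ofReal ε) : ConjLip S (Real.toNNReal (Real.exp ε)) := by
  rcases S.eq_empty_or_nonempty with hS | hS
  · exact ⟨Homeomorph.refl Circ, fun s hs => by rw [hS] at hs; exact absurd hs (Set.notMem_empty s)⟩
  obtain ⟨D, hD, hcont, ⟨A, hA, hAb⟩, hest⟩ := JB.exists_deriv S hfin hC1
  have hB : Base S D A := ⟨hsym, hA, fun s hs x => (hAb s hs x).1, fun s hs x => (hAb s hs x).2⟩
  obtain ⟨M, hMm, hM1, hMfin, hMS⟩ := density_above hfin hS hB hcont hest hent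
  exact JC.conj_of_density S D hD M hMm hM1 hMfin (Real.toNNReal (Real.exp ε)) hMS

/-- **The geometric entropy is the infimum of the logarithms of the Lipschitz constants.** -/
theorem entropy_eq (hfin : S.Finite) (hsym : ∀ s ∈ S, s⁻¹ ∈ S) (hC1 : ∀ s ∈ S, IsC1Diffeo s) :
    entropy S = ⨅ (L : ℝ≥0) (_ : ConjLip S L), ENNReal.ofReal (Real.log L) := by
  apply le_antisymm
  · exact le_iInf₂ fun L hL => entropy_le hfin hL
  · apply le_of_forall_gt
    intro c hc
    obtain ⟨b, hb1, hb2⟩ := ENNReal.lt_iff_exists_nnreal_btwn.1 hc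
    have h1 : (b : ℝ≥0∞) = ENNReal.ofReal (b : ℝ) := by simp
    have h2 := conj_above hfin hsym hC1 (ε := (b : ℝ)) (by rw [← h1]; exact hb1)
    refine lt_of_le_of_lt (iInf₂_le _ h2) ?_
    rw [Real.coe_toNNReal _ (Real.exp_pos _).le, Real.log_exp, ← h1]
    exact hb2

end Pool.Agent.Y689.CE
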